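import Mathlib
import Pool.Agent.Helper27.EB.FinalB

/-!
MP_eb515b_lc: LCL problems with a majority polymorphism.

For an LCL problem (any finite label set) whose constraint on the grid `Z^d` is preserved by a
majority operation, a measurable, or a Baire-measurable, solution on the shift graph of the free part
of `2^(Z^d)` exists only if a constant labelling is a solution.
-/

namespace Pool.Agent.Results.MP_eb515b_lc.MajorityLabels

theorem result (d : ℕ) (S : Type) [Finite S] (m : S → S → S → S) (hm : EB.Majority m)
    (L : EB.LCL S) (hL : EB.Preserved d m L) :
    List.TFAE [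
      EB.ConstSol d L,
      ∀ (X : Type) [MeasurableSpace X] (a : EB.FreeAct d X), EB.BorelSol a L,
      EB.BorelSol (EB.fshift d) L,
      EB.MeasSol d L,
      EB.BernSol d L,
      EB.BaireSol d L] :=
  EB.majority_tfae d m hm L hL

end Pool.Agent.Results.MP_eb515b_lc.MajorityLabels
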