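import Mathlib
import Pool.Agent.Helper68.ZE.Final

/-!
MP_eb515b_lc: LCL problems over a factor with entropy zero.

Let `L` be an LCL problem with the finite label set `S` and let `π : S → Q` be a map such that the images
of the solutions on the grid `Z^d` have entropy zero: the number `N(n)` of the images of their
restrictions to the box with side `n` satisfies `log N(n) = o(n^d)`.  Suppose that each fibre of `π` has
at most one label, or that the LCL problem of this fibre does not separate.  Then `L` does not separate:
a measurable, or a Baire-measurable, solution on the shift graph of the free part of `2^(Z^d)` exists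
only if the LCL problem of one fibre of `π` has Borel solutions on all free Borel actions.  For
injective `π` this fibre gives a constant solution: LCL problems with entropy zero are never solvable in
a nontrivial way.
-/

namespace Pool.Agent.Results.MP_eb515b_lc.ZeroEntropyFactor

theorem result (d : ℕ) (hd : 1 ≤ d) (S Q : Type) [Finite S] [Finite Q] (L : EB.LCL S) (π : S → Q)
    (hL : ZE.ZeroEntropy d L π)
    (hfib : ∀ q, (∀ s s', π s = q → π s' = q → s = s') ∨
      (EB.BernSol d (ZE.fib L π q) ∨ EB.BaireSol d (ZE.fib L π q) →
        ∀ (X : Type) [MeasurableSpace X] [StandardBorelSpace X] (a : EB.FreeAct d X),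
          EB.BorelSol a (ZE.fib L π q))) :
    List.TFAE [
      ∃ q, (∀ (X : Type) [MeasurableSpace X] [StandardBorelSpace X] (a : EB.FreeAct d X),
          EB.BorelSol a (ZE.fib L π q)) ∧
        ((∀ s s', π s = q → π s' = q → s = s') → EB.ConstSol d (ZE.fib L π q)),
      ∀ (X : Type) [MeasurableSpace X] [StandardBorelSpace X] (a : EB.FreeAct d X),
        EB.BorelSol a L,
      EB.BorelSol (EB.fshift d) L,
      EB.MeasSol d L,
      EB.BernSol d L,
      EB.BaireSol d L] :=
  ZE.factor_tfae d hd L π hL hfib

end Pool.Agent.Results.MP_eb515b_lc.ZeroEntropyFactor
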